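import Pool.Agent.Y503.RB.Def3

/-!
# Project RB (helper503), job RB3-GSURF: images of surfaces

Proved by helper794, after the proofs for `push ξ` by helper31 and helper434.
-/

set_option autoImplicit false

namespace Pool.Agent.Y794.RB

open scoped ContDiff RealInnerProductSpace ENNReal Topology
open MeasureTheory Set Metric
open Pool.Agent.Y503.RB

/-- restriction of a patch -/
theorem bpatch_mono {φ : ℂ → E4} {U U₀ : Set ℂ} (h : BPatch φ U) (h0 : IsOpen U₀) (hU : U₀ ⊆ U) :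
    BPatch φ U₀ where
  isOpen := h0
  smooth := h.smooth.mono hU
  imm := fun z hz => h.imm z (hU hz)
  emb := h.emb.comp (Topology.IsEmbedding.inclusion hU)
  trans := fun z hz => h.trans z (hU hz)

/-- a parametrisation composed with the diffeomorphism -/
theorem bpatch_comp {Φ Ψ : E4 → E4} {D D' : Set E4} (hR : RelDiffeo Φ Ψ D D') {φ : ℂ → E4}
    {U : Set ℂ} (h : BPatch φ U) (hD : ∀ z ∈ U, φ z ∈ D) : BPatch (fun w => Φ (φ w)) U := by
  have hat : ∀ z ∈ U, ContDiffAt ℝ ∞ φ z :=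
    fun z hz => h.smooth.contDiffAt (h.isOpen.mem_nhds hz)
  have hatc : ∀ z ∈ U, ContDiffAt ℝ ∞ (fun w => Φ (φ w)) z :=
    fun z hz => (hR.map (φ z) (hD z hz)).2.2.comp z (hat z hz)
  refine ⟨h.isOpen, ?_, ?_, ?_, ?_⟩
  · intro z hz
    exact (hatc z hz).contDiffWithinAt
  · intro z hz
    have hΨ : ContDiffAt ℝ ∞ Ψ (Φ (φ z)) := (hR.map' _ (hR.map _ (hD z hz)).1).2.2
    have hev : (fun w => Ψ (Φ (φ w))) =ᶠ[𝓝 z] φ := by
      filter_upwards [h.isOpen.mem_nhds hz] with w hw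
      exact (hR.map _ (hD w hw)).2.1
    have e1 : fderiv ℝ (fun w => Ψ (Φ (φ w))) z = fderiv ℝ φ z := hev.fderiv_eq
    have e2 : fderiv ℝ (fun w => Ψ (Φ (φ w))) z =
        (fderiv ℝ Ψ (Φ (φ z))).comp (fderiv ℝ (fun w => Φ (φ w)) z) :=
      fderiv_comp z (hΨ.differentiableAt (by simp)) ((hatc z hz).differentiableAt (by simp))
    have hinj := h.imm z hz
    intro a b hab
    apply hinj
    rw [← e1, e2, ContinuousLinearMap.comp_apply, ContinuousLinearMap.comp_apply, hab]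
  · refine ⟨?_, ?_⟩
    · rw [Topology.isInducing_iff_nhds]
      rintro ⟨z, hz⟩
      have hc : ContinuousAt Φ (φ z) := (hR.map (φ z) (hD z hz)).2.2.continuousAt
      have hp : ContinuousAt Ψ (Φ (φ z)) :=
        (hR.map' _ (hR.map (φ z) (hD z hz)).1).2.2.continuousAt
      have he : Ψ (Φ (φ z)) = φ z := (hR.map (φ z) (hD z hz)).2.1
      apply le_antisymm
      · rw [← Filter.tendsto_iff_comap]
        have h1 : Filter.Tendsto Φ (𝓝 (φ z)) (𝓝 (Φ (φ z))) := hc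
        have h2 : Filter.Tendsto (fun w : U => φ w) (𝓝 (⟨z, hz⟩ : U)) (𝓝 (φ z)) :=
          h.emb.continuous.tendsto (⟨z, hz⟩ : U)
        exact h1.comp h2
      · rw [h.emb.isInducing.nhds_eq_comap ⟨z, hz⟩, ← Filter.tendsto_iff_comap]
        have e1 : (fun w : U => φ w) = Ψ ∘ (fun w : U => Φ (φ w)) := by
          funext w
          exact ((hR.map (φ w) (hD w w.2)).2.1).symm
        rw [e1]
        have h1 : Filter.Tendsto Ψ (𝓝 (Φ (φ z))) (𝓝 (φ z)) := by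
          have h2 : Filter.Tendsto Ψ (𝓝 (Φ (φ z))) (𝓝 (Ψ (Φ (φ z)))) := hp
          rwa [he] at h2
        show Filter.Tendsto (Ψ ∘ (fun w : U => Φ (φ w)))
          (Filter.comap (fun w : U => Φ (φ w)) (𝓝 (Φ (φ z)))) (𝓝 (φ z))
        exact h1.comp Filter.tendsto_comap
    · intro a b hab
      apply h.emb.injective
      show φ a = φ b
      rw [← (hR.map (φ a) (hD a a.2)).2.1, ← (hR.map (φ b) (hD b b.2)).2.1]
      exact congrArg Ψ hab
  · intro z hz h1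
    have h2 : ‖φ z‖ = 1 := (hR.eq_one (φ z) (hD z hz)).1 h1
    have h3 := h.trans z hz h2
    obtain ⟨c, hc, hc2⟩ := hR.trans φ z (hD z hz) h2 (hat z hz)
    rw [hc2]
    exact smul_ne_zero hc.ne' h3

theorem gsurf : St_GSURF := by
  intro Φ Ψ D D' F hR hF hFD
  have hle : ∀ x ∈ D, ‖Φ x‖ ≤ 1 ↔ ‖x‖ ≤ 1 := by
    intro x hx
    rw [le_iff_lt_or_eq, le_iff_lt_or_eq, hR.lt_one x hx, hR.eq_one x hx]
  have hpc : ContinuousOn Ψ D' := fun w hw =>
    ((hR.map' w hw).2.2.continuousAt).continuousWithinAt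
  have hV' : ∀ V : Set E4, IsOpen V → IsOpen (D' ∩ Ψ ⁻¹' V) := fun V hV =>
    hpc.isOpen_inter_preimage hR.isOpen' hV
  have key : ∀ V : Set E4, Φ '' F ∩ (D' ∩ Ψ ⁻¹' V) = Φ '' (F ∩ V) := by
    intro V
    ext w
    constructor
    · rintro ⟨⟨p, hp, rfl⟩, _, h2⟩
      refine ⟨p, ⟨hp, ?_⟩, rfl⟩
      have h3 : Ψ (Φ p) ∈ V := h2
      rwa [(hR.map p (hFD hp)).2.1] at h3
    · rintro ⟨p, ⟨hp, hpV⟩, rfl⟩
      refine ⟨⟨p, hp, rfl⟩, (hR.map p (hFD hp)).1, ?_⟩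
      show Ψ (Φ p) ∈ V
      rw [(hR.map p (hFD hp)).2.1]
      exact hpV
  refine ⟨⟨?_, ?_, ?_⟩, ?_⟩
  · apply hF.compact.image_of_continuousOn
    intro p hp
    exact ((hR.map p (hFD hp)).2.2.continuousAt).continuousWithinAt
  · rintro _ ⟨p, hp, rfl⟩
    have h1 := hF.sub hp
    rw [mem_closedBall, dist_zero_right] at h1 ⊢
    exact (hle p (hFD hp)).2 h1
  · rintro _ ⟨p, hp, rfl⟩
    obtain ⟨φ, U, V, hφ, hV, hpV, hFV⟩ := hF.loc p hp
    have hU0 : IsOpen (U ∩ φ ⁻¹' D) :=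
      hφ.smooth.continuousOn.isOpen_inter_preimage hφ.isOpen hR.isOpen
    have hφ0 : BPatch φ (U ∩ φ ⁻¹' D) := bpatch_mono hφ hU0 inter_subset_left
    have hne0 : ∀ z ∈ U ∩ φ ⁻¹' D, φ z ∈ D := fun z hz => hz.2
    refine ⟨fun w => Φ (φ w), U ∩ φ ⁻¹' D, D' ∩ Ψ ⁻¹' V,
      bpatch_comp hR hφ0 hne0, hV' V hV, ⟨(hR.map p (hFD hp)).1, ?_⟩, ?_⟩
    · show Ψ (Φ p) ∈ V
      rw [(hR.map p (hFD hp)).2.1]
      exact hpV
    · rw [key V]
      ext w
      constructor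
      · rintro ⟨x, hx, rfl⟩
        have hxF : x ∈ F := hx.1
        have hx2 : x ∈ φ '' U ∩ closedBall 0 1 := hFV ▸ hx
        obtain ⟨⟨z, hz, rfl⟩, hx3⟩ := hx2
        refine ⟨⟨z, ⟨hz, hFD hxF⟩, rfl⟩, ?_⟩
        rw [mem_closedBall, dist_zero_right] at hx3 ⊢
        exact (hle (φ z) (hFD hxF)).2 hx3
      · rintro ⟨⟨z, hz, rfl⟩, hw⟩
        refine ⟨φ z, ?_, rfl⟩
        rw [hFV]
        refine ⟨⟨z, hz.1, rfl⟩, ?_⟩
        rw [mem_closedBall, dist_zero_right] at hw ⊢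
        exact (hle (φ z) hz.2).1 hw
  · ext w
    constructor
    · rintro ⟨⟨p, hp, rfl⟩, hw⟩
      rw [mem_sphere, dist_zero_right] at hw
      have h1 : ‖p‖ = 1 := (hR.eq_one p (hFD hp)).1 hw
      have h2 : Φ p = p := hR.fix p (hFD hp) h1
      rw [h2]
      refine ⟨hp, ?_⟩
      rw [mem_sphere, dist_zero_right]
      exact h1
    · rintro ⟨hp, hw⟩
      refine ⟨⟨w, hp, ?_⟩, hw⟩
      rw [mem_sphere, dist_zero_right] at hw
      exact hR.fix w (hFD hp) hw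

end Pool.Agent.Y794.RB
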